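import Pool.Agent.MVK.Stmts

/-!
# MVK, row F1X
-/

namespace Pool.Agent.MVK.H49

open Pool.Agent.Helper14_MV Pool.Agent.Helper2_MV Pool.Agent.MVD Pool.Agent.MVK

theorem via {β : FIC} {y : ℕ} {w w' : List ℕ} (h : Kd β y w) (h' : Kd β y w')
    (hf : w.filter (fun c => decide (c ≠ y)) = w'.filter (fun c => decide (c ≠ y)))
    (hc : w.count y = w'.count y) : RR β w w' := by
  unfold Kd at h h'
  rw [hf, hc] at h
  exact β.trans h (RR.symm h')

theorem f1x (gth : GthStmt) : F1xStmt := by
  intro β hM hC hI
  constructor
  · intro p c q x y hxy hx hc
    have e1 : p ++ y :: x :: (c ++ y :: q) = p ++ y :: ((x :: c) ++ y :: q) := rfl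
    have e2 : p ++ x :: y :: (c ++ y :: q) = (p ++ [x]) ++ y :: (c ++ y :: q) := by simp
    have hx1 : 1 ≤ (p ++ (c ++ q)).count x := List.one_le_count_iff.2 hx
    have h1 : Kd β y (p ++ y :: x :: (c ++ y :: q)) := by
      rw [e1]
      apply gth β hM hC hI p (x :: c) q y
      intro a ha
      rcases List.mem_cons.1 ha with rfl | ha
      · simp only [List.count_append, List.count_cons, List.cons_append, beq_self_eq_true,
          if_true] at hx1 ⊢
        omega
      · exact hc a ha
    have h2 : Kd β y (p ++ x :: y :: (c ++ y :: q)) := by
      rw [e2]
      apply gth β hM hC hI (p ++ [x]) c q y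
      intro a ha
      have h3 := hc a ha
      simp only [List.count_append, List.count_cons, List.count_nil] at h3 ⊢
      omega
    apply via h1 h2
    · simp only [List.filter_append, List.filter_cons, ne_eq, hxy, not_false_eq_true,
        decide_true, if_true, not_true_eq_false, decide_false]
      simp
    · simp only [List.count_append, List.count_cons]
      omega
  · intro p c q x y hxy hx hc
    have e1 : p ++ y :: (c ++ x :: y :: q) = p ++ y :: ((c ++ [x]) ++ y :: q) := by simp
    have hx1 : 1 ≤ (p ++ (c ++ q)).count x := List.one_le_count_iff.2 hx
    have h1 : Kd β y (p ++ y :: (c ++ x :: y :: q)) := by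
      rw [e1]
      apply gth β hM hC hI p (c ++ [x]) q y
      intro a ha
      rcases List.mem_append.1 ha with ha | ha
      · rw [← e1]
        exact hc a ha
      · have ha' : a = x := by simpa using ha
        subst ha'
        simp only [List.count_append, List.count_cons, List.count_nil, beq_self_eq_true,
          if_true] at hx1 ⊢
        omega
    have h2 : Kd β y (p ++ y :: (c ++ y :: x :: q)) := by
      apply gth β hM hC hI p c (x :: q) y
      intro a ha
      have h3 := hc a ha
      simp only [List.count_append, List.count_cons] at h3 ⊢
      omega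
    apply via h1 h2
    · simp only [List.filter_append, List.filter_cons, ne_eq, hxy, not_false_eq_true,
        decide_true, if_true, not_true_eq_false, decide_false]
      simp
    · simp only [List.count_append, List.count_cons]
      omega

end Pool.Agent.MVK.H49
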